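import Pool.Agent.Helper66.CH.ChaosDefs
import Pool.Agent.Helper66.CH.Main5

set_option autoImplicit false

namespace Pool.Agent.Results.MP_37ff18_mp.ChaosIncongruence2D

open MeasureTheory Pool.H66.EAM Pool.H66.CH

/-- **Chaos and incongruence** in the two-dimensional Edwards-Anderson model, for every coupling
law without atoms. -/
theorem result (μ : Measure ℝ) [IsProbabilityMeasure μ] (hμ : ∀ x : ℝ, μ {x} = 0) :
    (∃ Q : Measure ((E → ℝ) × (V → ℝ)), StationaryLaw μ Q) ∧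
    ∃ m : Fin 2 → (E → ℝ) → ℝ, IsBond μ m ∧
      (∀ (lam : Measure ℝ) [IsProbabilityMeasure lam] (T : ℝ × ℝ → ℝ), IsPert μ lam T →
        crossQ μ lam T m ≤ selfQ μ m ∧
        ∀ᵐ p ∂((Measure.infinitePi fun _ : E => μ).prod (Measure.infinitePi fun _ : E => lam)),
          ∀ ε > 0, ∃ M₀ : ℕ, ∀ M ≥ M₀, ∀ σ τ : V → ℝ,
            IsGroundIn (box (2 * M)) p.1 σ → IsGroundIn (box (2 * M)) (pertJ T p.1 p.2) τ →
              |overlap M σ τ - crossQ μ lam T m| ≤ ε) ∧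
      (∀ (lam : ℕ → Measure ℝ) [∀ k, IsProbabilityMeasure (lam k)] (T : ℕ → ℝ × ℝ → ℝ),
        (∀ k, IsPert μ (lam k) (T k)) → TendsToId μ lam T →
        Filter.Tendsto (fun k => crossQ μ (lam k) (T k) m) Filter.atTop (nhds (selfQ μ m))) ∧
      (∃ (lam : ℕ → Measure ℝ) (T : ℕ → ℝ × ℝ → ℝ), (∀ k, IsProbabilityMeasure (lam k)) ∧
        (∀ k, IsPert μ (lam k) (T k)) ∧ TendsToId μ lam T) ∧
      ((selfQ μ m = 1 ∧ CaseA μ) ∨ (selfQ μ m < 1 ∧ CaseB μ)) :=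
  ⟨exists_stationary μ hμ, main5 μ hμ⟩

end Pool.Agent.Results.MP_37ff18_mp.ChaosIncongruence2D
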