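import Pool.Agent.Helper83.S5.Main2

set_option autoImplicit false
open MeasureTheory

namespace Pool.Agent.Results.MP_37ff18_mp.TwoOrInfinite2D

open Pool.Agent.Helper60.TJ

/-- **The number of ground states of the two-dimensional Edwards-Anderson model.** Let the couplings
on the edges of `ℤ²` be independent with the same law `μ`, which is symmetric and has no atoms.
Then almost surely there are exactly two ground states, or almost surely exactly four, or almost
surely infinitely many. If moreover the support of `μ` is unbounded (for example `μ` Gaussian), then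
almost surely there are exactly two ground states, or almost surely infinitely many. No moment is
assumed. -/
theorem result (μ : Measure ℝ) [IsProbabilityMeasure μ] (hμ : ∀ x : ℝ, μ {x} = 0)
    (hsym : μ.map (fun x => -x) = μ) :
    ((∀ᵐ J ∂(Measure.infinitePi fun _ : (ℤ × ℤ) × Bool => μ),
        {σ | IsGroundState J σ}.encard = 2) ∨
      (∀ᵐ J ∂(Measure.infinitePi fun _ : (ℤ × ℤ) × Bool => μ),
        {σ | IsGroundState J σ}.encard = 4) ∨
      (∀ᵐ J ∂(Measure.infinitePi fun _ : (ℤ × ℤ) × Bool => μ),
        {σ | IsGroundState J σ}.Infinite)) ∧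
    ((∀ K : ℝ, μ {x | K < |x|} ≠ 0) →
      (∀ᵐ J ∂(Measure.infinitePi fun _ : (ℤ × ℤ) × Bool => μ),
        {σ | IsGroundState J σ}.encard = 2) ∨
      (∀ᵐ J ∂(Measure.infinitePi fun _ : (ℤ × ℤ) × Bool => μ),
        {σ | IsGroundState J σ}.Infinite)) :=
  ⟨main1 μ hμ hsym, fun hu => Pool.Agent.Helper83.S5.main2 μ hμ hsym hu⟩

end Pool.Agent.Results.MP_37ff18_mp.TwoOrInfinite2D
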