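import Pool.Agent.Helper66.EAM.CaseDefs
import Pool.Agent.Helper49.M1.UDefs
import Pool.Agent.Helper49.M1.Excl

set_option autoImplicit false

namespace Pool.Agent.Results.MP_37ff18_mp.UniqueLaw2D

open MeasureTheory Pool.H66.EAM

/-- **Uniqueness of the translation invariant law of the ground state pair** of the two-dimensional
Edwards-Anderson model, for every symmetric coupling law `μ` without atoms (no moment is assumed):
the law of (couplings, bond variables of the ground state) is the same under all translation
invariant laws of (couplings, ground state), and such laws exist. Moreover exactly one of the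
following holds: case A (one covariant pair of ground states carries all these laws), or case B
together with `TwoPairs` (given the couplings, the ground state pair is one of two pairs, which
differ along one bi-infinite path, with probability one half each). -/
theorem result (μ : Measure ℝ) [IsProbabilityMeasure μ] (hμ : ∀ x : ℝ, μ {x} = 0)
    (hsym : μ.map (fun x => -x) = μ) :
    (∃! P : Measure ((E → ℝ) × (E → ℝ)), ∃ Q : Measure ((E → ℝ) × (V → ℝ)),
      StationaryLaw μ Q ∧ Q.map (fun p => (p.1, bond p.2)) = P) ∧
    (CaseA μ ∨ (CaseB μ ∧ ∃ α β : (E → ℝ) → V → ℝ, TwoPairs μ α β)) ∧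
    ¬ (CaseA μ ∧ ∃ α β : (E → ℝ) → V → ℝ, TwoPairs μ α β) :=
  Pool.Agent.Helper49.M1.unique_law hμ hsym

end Pool.Agent.Results.MP_37ff18_mp.UniqueLaw2D
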