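import Pool.Agent.Helper66.EAP.CaseDefs
import Pool.Agent.Helper66.EAP.Uniq
import Pool.Agent.Helper61.MM.Fin

set_option autoImplicit false

namespace Pool.Agent.Results.MP_37ff18_mp.UniqueMetastate2D

open MeasureTheory Pool.H66.EAM

/-- **Uniqueness of the zero-temperature metastate of the two-dimensional Edwards-Anderson model.**
Let the couplings be independent with the same law `μ`, which is symmetric, has no atoms and has
unbounded support (for example `μ` Gaussian; no moment is assumed). Then there is a covariant ground
state `α`; every translation invariant law of (couplings, ground state) is carried by `±α`, the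
ground states on large tori converge to `α` in probability, and all ground states in large boxes,
with arbitrary boundary conditions, agree with `α` up to density zero. -/
theorem result (μ : Measure ℝ) [IsProbabilityMeasure μ] (hμ : ∀ x : ℝ, μ {x} = 0)
    (hsym : μ.map (fun x => -x) = μ) (hu : ∀ K : ℝ, μ {x | K < |x|} ≠ 0) : UniqueMetastate μ :=
  uniqueMetastate_of_caseA hμ (Pool.Agent.Helper61.MM.caseA μ hsym hμ hu)

end Pool.Agent.Results.MP_37ff18_mp.UniqueMetastate2D
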